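import Pool.Agent.H109Z.Frog.Spec

set_option autoImplicit false

namespace Pool.Agent.H109Z.FrogGW

open Function Finset
open scoped ENNReal

lemma d23_row_miss {g : ℕ → ℝ} {k c : ℕ} {x : ℝ} (hg : ∀ i < k, 0 ≤ g i) (hx : 0 ≤ x)
    (hc : c < k) :
    EL (row g k x) (fun ro => if ro c = true then 0 else 1) = ee (x * g c / (1 + Cs g k)) := by
  have hC := Cs_nonneg hg
  have hgc := hg c hc
  unfold row
  rw [EL_coord (fun b => bern (x * g b / (1 + Cs g k))) (fun _ => false) (List.mem_range.2 hc)
    (fun t => if t = true then 0 else 1), EL_bern (by positivity)]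
  simp

theorem D2_thm : D2Stmt := by
  intro g m k c0 c hg hm hc0 hc
  rw [← d23_row_miss hg (hm c0 hc0) hc]
  unfold rows
  rw [← EL_coord (fun a => row g k (m a)) (fun _ _ => false) (List.mem_range.2 hc0)
    (fun ro => if ro c = true then 0 else 1)]
  refine EL_mono _ fun r => ?_
  by_cases h : r c0 c = true
  · have : c ∈ Rch k r c0 := by
      simp only [Rch, mem_filter, mem_range]
      exact ⟨hc, Relation.ReflTransGen.single ⟨hc, h⟩⟩
    simp [this]
  · simp only [h]
    split_ifs <;> simp_all

lemma d23_lift {r r' : ℕ → ℕ → Bool} {a0 : ℕ} (hr : ∀ x, x ≠ a0 → r' x = r x)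
    {S S' : ℕ → Prop} (hS : ∀ b, S b → S' b ∧ b ≠ a0) {q x : ℕ} (hq : q ≠ a0)
    (h : Relation.ReflTransGen (fun a b => S b ∧ r a b = true) q x) :
    x ≠ a0 ∧ Relation.ReflTransGen (fun a b => S' b ∧ r' a b = true) q x := by
  induction h with
  | refl => exact ⟨hq, Relation.ReflTransGen.refl⟩
  | tail _ hb ih =>
    refine ⟨(hS _ hb.1).2, ih.2.tail ⟨(hS _ hb.1).1, ?_⟩⟩
    rw [hr _ ih.1]
    exact hb.2

/-- no vertex reached from `Q` through `U` hits `c` -/
def d23_fail (c : ℕ) (U Q : Finset ℕ) (r : ℕ → ℕ → Bool) : Prop :=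
  ∀ q ∈ Q, ∀ a, Relation.ReflTransGen (fun a b => b ∈ U ∧ r a b = true) q a → r a c = false

lemma d23_ee_nsmul (x : ℝ) (n : ℕ) : ee (x * n) = ee x ^ n := by
  induction n with
  | zero => simp [ee_zero]
  | succ n ih => rw [Nat.cast_succ, mul_add, mul_one, ee_add, ih, pow_succ]

lemma d23_pow_filter (β : ℝ≥0∞) (U : Finset ℕ) (ro : ℕ → Bool) :
    β ^ (U.filter fun b => ro b = true).card = ∏ b ∈ U, if ro b = true then β else 1 := by
  rw [Finset.prod_ite, Finset.prod_const, Finset.prod_const_one, mul_one]

lemma d23_bern_bound {x z b : ℝ} (hz : 0 ≤ z) (hzx : z ≤ x) (hb : Real.exp (-b) ≤ 1 / 2) :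
    (1 - ee x) * ee b + ee x * 1 ≤ ee ((1 - Real.exp (-z)) / 2) := by
  have h1 : Real.exp (-x) ≤ Real.exp (-z) := Real.exp_le_exp.2 (by linarith)
  have h2 : Real.exp (-z) ≤ 1 := Real.exp_le_one_iff.2 (by linarith)
  have h3 := Real.exp_pos (-x)
  have h4 := Real.exp_pos (-b)
  have e1 : (1 : ℝ≥0∞) - ee x = ENNReal.ofReal (1 - Real.exp (-x)) := by
    unfold ee
    rw [ENNReal.ofReal_sub _ h3.le, ENNReal.ofReal_one]
  rw [e1, mul_one]
  unfold ee
  rw [← ENNReal.ofReal_mul (by linarith), ← ENNReal.ofReal_add (mul_nonneg (by linarith) h4.le) h3.le]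
  refine ENNReal.ofReal_le_ofReal ?_
  have h5 := Real.add_one_le_exp (-((1 - Real.exp (-z)) / 2))
  nlinarith

lemma d23_row_pow {g : ℕ → ℝ} {k : ℕ} {x y γ0 b : ℝ} (hg : ∀ i < k, 0 ≤ g i) (hy : 0 ≤ y)
    (hyx : y ≤ x) (hγ : 0 ≤ γ0) (hb : Real.exp (-b) ≤ 1 / 2) (U : Finset ℕ)
    (hU : ∀ i ∈ U, i < k ∧ γ0 ≤ g i) :
    EL (row g k x) (fun ro => ee b ^ (U.filter fun i => ro i = true).card) ≤
      ee ((1 - Real.exp (-(y * γ0 / (1 + Cs g k)))) / 2 * U.card) := by
  have hC := Cs_nonneg hg
  simp only [d23_pow_filter]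
  unfold row
  rw [EL_prod' (fun b => bern (x * g b / (1 + Cs g k))) (fun _ => false) (List.range k) U
    (fun i hi => List.mem_range.2 (hU i hi).1) (fun _ t => if t = true then ee b else 1),
    d23_ee_nsmul, ← Finset.prod_const]
  refine Finset.prod_le_prod' fun i hi => ?_
  have hgi := (hU i hi).2
  have hx0 : 0 ≤ x := hy.trans hyx
  have hg0 : 0 ≤ g i := hγ.trans hgi
  rw [EL_bern (by positivity)]
  simp only [if_true, Bool.false_eq_true, if_false]
  refine d23_bern_bound (by positivity) ?_ hb
  exact div_le_div_of_nonneg_right (mul_le_mul hyx hgi hγ hx0) (by positivity)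

open Classical in
lemma d23_main {g m : ℕ → ℝ} {k c : ℕ} {Gd : Finset ℕ} {γ0 y : ℝ}
    (hg : ∀ i < k, 0 ≤ g i) (hc : c < k) (hGd : Gd ⊆ range k) (hγ : 0 ≤ γ0) (hy : 0 ≤ y)
    (hb : ∀ b ∈ Gd, γ0 ≤ g b ∧ y ≤ m b)
    (hβ : Real.exp (-((1 - Real.exp (-(y * γ0 / (1 + Cs g k)))) * Gd.card / 4)) ≤ 1 / 2) :
    ∀ (n : ℕ) (U Q : Finset ℕ), U.card + Q.card = n → U ⊆ Gd → Q ⊆ Gd → Disjoint U Q →
      EL (rows g k m) (fun r => if d23_fail c U Q r then 1 else 0) ≤
        ee ((1 - Real.exp (-(y * γ0 / (1 + Cs g k)))) * Gd.card / 4) ^ Q.card +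
          ee (y * g c / (1 + Cs g k) * (Q.card + U.card - Gd.card / 2)) := by
  have hC := Cs_nonneg hg
  have hgc := hg c hc
  set ρ : ℝ := 1 - Real.exp (-(y * γ0 / (1 + Cs g k))) with hρ
  set κ : ℝ := y * g c / (1 + Cs g k) with hκ
  have hκ0 : 0 ≤ κ := by positivity
  have hρ0 : 0 ≤ ρ := by
    have : Real.exp (-(y * γ0 / (1 + Cs g k))) ≤ 1 :=
      Real.exp_le_one_iff.2 (neg_nonpos.2 (by positivity))
    linarith
  have hlt : ∀ i ∈ Gd, i < k := fun i hi => mem_range.1 (hGd hi)
  have hmiss : ∀ q ∈ Gd,
      EL (row g k (m q)) (fun ro => if ro c = true then 0 else 1) ≤ ee κ := by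
    intro q hq
    rw [d23_row_miss hg (hy.trans (hb q hq).2) hc]
    exact ee_anti (div_le_div_of_nonneg_right
      (mul_le_mul_of_nonneg_right (hb q hq).2 hgc) (by positivity))
  intro n
  induction n using Nat.strong_induction_on with
  | _ n ih =>
  intro U Q hn hU hQ hd
  rcases Q.eq_empty_or_nonempty with rfl | ⟨a, ha⟩
  · refine le_trans (EL_le_const _ (c := 1) fun r _ => by split_ifs <;> simp) ?_
    simp
  by_cases hUG : (U.card : ℝ) < Gd.card / 2
  · refine le_trans ?_ le_add_self
    calc EL (rows g k m) (fun r => if d23_fail c U Q r then 1 else 0)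
        ≤ EL (rows g k m) (fun r => ∏ q ∈ Q, if r q c = true then 0 else 1) := by
          refine EL_mono _ fun r => ?_
          split_ifs with h
          · refine le_of_eq (Finset.prod_eq_one fun q hq => ?_).symm
            simp [h q hq q Relation.ReflTransGen.refl]
          · simp
      _ = ∏ q ∈ Q, EL (row g k (m q)) (fun ro => if ro c = true then 0 else 1) :=
          EL_prod' (fun a => row g k (m a)) (fun _ _ => false) (List.range k) Q
            (fun i hi => List.mem_range.2 (hlt i (hQ hi)))
            (fun _ ro => if ro c = true then 0 else 1)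
      _ ≤ ∏ _q ∈ Q, ee κ := Finset.prod_le_prod' fun q hq => hmiss q (hQ hq)
      _ = ee (κ * Q.card) := by rw [Finset.prod_const, d23_ee_nsmul]
      _ ≤ _ := ee_anti (mul_le_mul_of_nonneg_left (by linarith) hκ0)
  have hUG' : (Gd.card : ℝ) / 2 ≤ U.card := not_lt.1 hUG
  have haU : a ∉ U := fun h => Finset.disjoint_left.1 hd h ha
  have hQpos : 1 ≤ Q.card := Finset.card_pos.2 ⟨a, ha⟩
  set β : ℝ≥0∞ := ee (ρ * Gd.card / 4) with hβdef
  -- resample the row of `a`
  have step : ∀ (r : ℕ → ℕ → Bool) (ro : ℕ → Bool),
      (if d23_fail c U Q (update r a ro) then (1 : ℝ≥0∞) else 0) ≤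
        (if ro c = true then 0 else 1) *
          (if d23_fail c (U \ U.filter fun i => ro i = true)
            (Q.erase a ∪ U.filter fun i => ro i = true) r then 1 else 0) := by
    intro r ro
    by_cases h : d23_fail c U Q (update r a ro)
    · have h1 : ro c = false := by simpa using h a ha a Relation.ReflTransGen.refl
      have h2 : d23_fail c (U \ U.filter fun i => ro i = true)
          (Q.erase a ∪ U.filter fun i => ro i = true) r := by
        intro q hq x hx
        have hqa : q ≠ a := by
          rcases Finset.mem_union.1 hq with hq' | hq'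
          · exact Finset.ne_of_mem_erase hq'
          · intro e; exact haU (e ▸ (Finset.mem_filter.1 hq').1)
        obtain ⟨hxa, hp⟩ := d23_lift (r' := update r a ro) (a0 := a)
          (fun x hx => update_of_ne hx _ _) (S' := fun b => b ∈ U)
          (fun b hb => ⟨(Finset.mem_sdiff.1 hb).1, by
            rintro rfl; exact haU (Finset.mem_sdiff.1 hb).1⟩) hqa hx
        have key : update r a ro x c = false := by
          rcases Finset.mem_union.1 hq with hq | hq
          · exact h q (Finset.mem_of_mem_erase hq) x hp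
          · refine h a ha x (Relation.ReflTransGen.head ⟨(Finset.mem_filter.1 hq).1, ?_⟩ hp)
            simpa using (Finset.mem_filter.1 hq).2
        rwa [update_of_ne hxa] at key
      simp [h, h1, h2]
    · simp [h]
  have hIH : ∀ ro : ℕ → Bool,
      EL (rows g k m) (fun r => if d23_fail c (U \ U.filter fun i => ro i = true)
        (Q.erase a ∪ U.filter fun i => ro i = true) r then 1 else 0) ≤
      β ^ (Q.card - 1) * β ^ (U.filter fun i => ro i = true).card +
        ee (κ * (Q.card + U.card - 1 - Gd.card / 2)) := by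
    intro ro
    have hsub : (U.filter fun i => ro i = true) ⊆ U := Finset.filter_subset _ _
    have hdis : Disjoint (Q.erase a) (U.filter fun i => ro i = true) :=
      Finset.disjoint_of_subset_left (Finset.erase_subset _ _)
        (Finset.disjoint_of_subset_right hsub hd.symm)
    have c1 : (Q.erase a ∪ U.filter fun i => ro i = true).card =
        Q.card - 1 + (U.filter fun i => ro i = true).card := by
      rw [Finset.card_union_of_disjoint hdis, Finset.card_erase_of_mem ha]
    have c2 : (U \ U.filter fun i => ro i = true).card +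
        (U.filter fun i => ro i = true).card = U.card := Finset.card_sdiff_add_card_eq_card hsub
    have := ih (n - 1) (by omega) (U \ U.filter fun i => ro i = true)
      (Q.erase a ∪ U.filter fun i => ro i = true) (by omega) (Finset.sdiff_subset.trans hU)
      (Finset.union_subset ((Finset.erase_subset _ _).trans hQ) (hsub.trans hU))
      (Finset.disjoint_union_right.2 ⟨Finset.disjoint_of_subset_left Finset.sdiff_subset
        (Finset.disjoint_of_subset_right (Finset.erase_subset _ _) hd), Finset.sdiff_disjoint⟩)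
    refine this.trans (le_of_eq ?_)
    rw [← pow_add, ← c1]
    congr 3
    have c3 : (Q.erase a ∪ U.filter fun i => ro i = true).card +
        (U \ U.filter fun i => ro i = true).card + 1 = Q.card + U.card := by omega
    have c4 : ((Q.erase a ∪ U.filter fun i => ro i = true).card : ℝ) +
        (U \ U.filter fun i => ro i = true).card + 1 = Q.card + U.card := by exact_mod_cast c3
    linarith
  have haG := hQ ha
  calc EL (rows g k m) (fun r => if d23_fail c U Q r then 1 else 0)
      = EL (rows g k m) (fun r => EL (row g k (m a)) fun ro =>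
          if d23_fail c U Q (update r a ro) then 1 else 0) :=
        EL_resample (fun a => row g k (m a)) (fun _ _ => false) (List.mem_range.2 (hlt a haG)) _
    _ ≤ EL (rows g k m) (fun r => EL (row g k (m a)) fun ro =>
          (if ro c = true then 0 else 1) *
          (if d23_fail c (U \ U.filter fun i => ro i = true)
            (Q.erase a ∪ U.filter fun i => ro i = true) r then 1 else 0)) :=
        EL_mono _ fun r => EL_mono _ fun ro => step r ro
    _ = EL (row g k (m a)) (fun ro => (if ro c = true then 0 else 1) *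
          EL (rows g k m) fun r => (if d23_fail c (U \ U.filter fun i => ro i = true)
            (Q.erase a ∪ U.filter fun i => ro i = true) r then 1 else 0)) := by
        rw [EL_comm]
        simp only [EL_const_mul]
    _ ≤ EL (row g k (m a)) (fun ro =>
          β ^ (Q.card - 1) * β ^ (U.filter fun i => ro i = true).card +
          (if ro c = true then 0 else 1) * ee (κ * (Q.card + U.card - 1 - Gd.card / 2))) := by
        refine EL_mono _ fun ro => ?_
        refine (mul_le_mul' le_rfl (hIH ro)).trans ?_
        split_ifs <;> simp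
    _ ≤ β ^ (Q.card - 1) * β + ee κ * ee (κ * (Q.card + U.card - 1 - Gd.card / 2)) := by
        rw [EL_add, EL_const_mul, EL_mul_const]
        refine add_le_add (mul_le_mul' le_rfl ?_) (mul_le_mul' (hmiss a haG) le_rfl)
        refine (d23_row_pow hg hy (hb a haG).2 hγ hβ U
          (fun i hi => ⟨hlt i (hU hi), (hb i (hU hi)).1⟩)).trans (ee_anti ?_)
        nlinarith
    _ = _ := by
        rw [← pow_succ, Nat.sub_add_cancel hQpos, ← ee_add]
        congr 2
        ring

open Classical in
theorem D3_thm : D3Stmt := by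
  intro g m k c0 c Gd γ0 y hg hm hc0 hc hGd hc0G hγ hy hb
  have hC := Cs_nonneg hg
  have hlt : ∀ i ∈ Gd, i < k := fun i hi => mem_range.1 (hGd hi)
  by_cases hβ : Real.exp (-((1 - Real.exp (-(y * γ0 / (1 + Cs g k)))) * Gd.card / 4)) ≤ 1 / 2
  swap
  · refine le_trans (EL_le_const _ (c := 1) fun r _ => by split_ifs <;> simp) ?_
    refine le_trans ?_ (le_self_add.trans' le_add_self)
    unfold ee
    rw [← ENNReal.ofReal_ofNat 2, ← ENNReal.ofReal_mul (by norm_num), ← ENNReal.ofReal_one]
    exact ENNReal.ofReal_le_ofReal (by linarith [not_le.1 hβ])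
  set β : ℝ≥0∞ := ee ((1 - Real.exp (-(y * γ0 / (1 + Cs g k)))) * Gd.card / 4) with hβdef
  have hβ1 : β ≤ 1 := by
    rw [hβdef]
    unfold ee
    rw [← ENNReal.ofReal_one]
    exact ENNReal.ofReal_le_ofReal (by linarith)
  have step : ∀ (r : ℕ → ℕ → Bool) (ro : ℕ → Bool),
      (if c ∈ Rch k (update r c0 ro) c0 then (0 : ℝ≥0∞) else 1) ≤
        (if d23_fail c (Gd \ Gd.filter fun i => ro i = true)
            (Gd.filter fun i => ro i = true) r then 1 else 0) := by
    intro r ro
    by_cases h : c ∈ Rch k (update r c0 ro) c0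
    · simp [h]
    · have h2 : d23_fail c (Gd \ Gd.filter fun i => ro i = true)
          (Gd.filter fun i => ro i = true) r := by
        intro q hq x hx
        have hqG := (Finset.mem_filter.1 hq).1
        have hqa : q ≠ c0 := by rintro rfl; exact hc0G hqG
        obtain ⟨hxa, hp⟩ := d23_lift (r' := update r c0 ro) (a0 := c0)
          (fun x hx => update_of_ne hx _ _) (S' := fun b => b < k)
          (fun b hb => ⟨hlt b (Finset.mem_sdiff.1 hb).1, by
            rintro rfl; exact hc0G (Finset.mem_sdiff.1 hb).1⟩) hqa hx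
        by_contra hne
        apply h
        simp only [Rch, mem_filter, mem_range]
        refine ⟨hc, Relation.ReflTransGen.head (b := q) ⟨hlt q hqG, ?_⟩ (hp.tail ⟨hc, ?_⟩)⟩
        · simpa using (Finset.mem_filter.1 hq).2
        · rw [update_of_ne hxa]
          simpa using hne
      simp [h, h2]
  have hmain : ∀ ro : ℕ → Bool,
      EL (rows g k m) (fun r => if d23_fail c (Gd \ Gd.filter fun i => ro i = true)
        (Gd.filter fun i => ro i = true) r then 1 else 0) ≤
      (∏ b ∈ Gd, if ro b = true then 0 else 1) +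
        (β + ee (y * g c * Gd.card / (2 * (1 + Cs g k)))) := by
    intro ro
    have hsub : (Gd.filter fun i => ro i = true) ⊆ Gd := Finset.filter_subset _ _
    have c2 : (Gd \ Gd.filter fun i => ro i = true).card +
        (Gd.filter fun i => ro i = true).card = Gd.card := Finset.card_sdiff_add_card_eq_card hsub
    have c3 : ((Gd \ Gd.filter fun i => ro i = true).card : ℝ) +
        (Gd.filter fun i => ro i = true).card = Gd.card := by exact_mod_cast c2
    refine (d23_main hg hc hGd hγ hy hb hβ _ _ _ rfl Finset.sdiff_subset hsub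
      Finset.sdiff_disjoint).trans ?_
    rw [← add_assoc]
    refine add_le_add ?_ (le_of_eq ?_)
    · rcases (Gd.filter fun i => ro i = true).eq_empty_or_nonempty with h | h
      · rw [h, Finset.card_empty, pow_zero]
        refine le_trans (le_of_eq (Finset.prod_eq_one fun b hbG => ?_).symm) le_self_add
        have : b ∉ Gd.filter fun i => ro i = true := by rw [h]; simp
        rw [if_neg fun hr => this (Finset.mem_filter.2 ⟨hbG, hr⟩)]
      · exact (pow_le_of_le_one (zero_le) hβ1 (Finset.card_pos.2 h).ne').trans le_add_self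
    · congr 1
      have : ((Gd.filter fun i => ro i = true).card : ℝ) +
          (Gd \ Gd.filter fun i => ro i = true).card - Gd.card / 2 = Gd.card / 2 := by linarith
      rw [this]
      field_simp
  have hm0 := hm c0 hc0
  calc EL (rows g k m) (fun r => if c ∈ Rch k r c0 then 0 else 1)
      = EL (rows g k m) (fun r => EL (row g k (m c0)) fun ro =>
          if c ∈ Rch k (update r c0 ro) c0 then 0 else 1) :=
        EL_resample (fun a => row g k (m a)) (fun _ _ => false) (List.mem_range.2 hc0) _
    _ ≤ EL (rows g k m) (fun r => EL (row g k (m c0)) fun ro =>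
          if d23_fail c (Gd \ Gd.filter fun i => ro i = true)
            (Gd.filter fun i => ro i = true) r then 1 else 0) :=
        EL_mono _ fun r => EL_mono _ fun ro => step r ro
    _ ≤ EL (row g k (m c0)) (fun ro => (∏ b ∈ Gd, if ro b = true then 0 else 1) +
        (β + ee (y * g c * Gd.card / (2 * (1 + Cs g k))))) := by
        rw [EL_comm]
        exact EL_mono _ hmain
    _ ≤ ee (m c0 * γ0 * Gd.card / (1 + Cs g k)) +
        (β + ee (y * g c * Gd.card / (2 * (1 + Cs g k)))) := by
        rw [EL_add, EL_const]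
        refine add_le_add ?_ le_rfl
        unfold row
        rw [EL_prod' (fun b => bern (m c0 * g b / (1 + Cs g k))) (fun _ => false) (List.range k) Gd
          (fun i hi => List.mem_range.2 (hlt i hi)) (fun _ t => if t = true then 0 else 1),
          show m c0 * γ0 * Gd.card / (1 + Cs g k) = m c0 * γ0 / (1 + Cs g k) * Gd.card by ring,
          d23_ee_nsmul, ← Finset.prod_const]
        refine Finset.prod_le_prod' fun i hi => ?_
        have hgi := hg i (hlt i hi)
        rw [EL_bern (by positivity)]
        simp only [if_true, Bool.false_eq_true, if_false, mul_zero, zero_add, mul_one]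
        exact ee_anti (div_le_div_of_nonneg_right
          (mul_le_mul_of_nonneg_left (hb i hi).1 hm0) (by positivity))
    _ ≤ _ := by
        rw [← add_assoc, two_mul β]
        exact add_le_add (add_le_add le_rfl le_self_add) le_rfl

end Pool.Agent.H109Z.FrogGW
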